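import Mathlib
import Pool.Agent.X48.SumDiff

/-!
For every `k` there is a bipartite graph (a tree of diameter four) whose difference index exceeds
half of its sum index, rounded up, by at least `k`.
-/

namespace Pool.Agent.Results.MP_ecebd1_co.UnboundedExcess

open Pool.Agent.X48.SumDiff

theorem result : ∀ k : ℤ, ∃ (V : Type) (_ : Fintype V) (G : SimpleGraph V),
    G.Colorable 2 ∧ (∃ u v, G.Adj u v) ∧
      k ≤ (diffIndex G : ℤ) - ⌈(sumIndex G : ℚ) / 2⌉ := by
  intro k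
  obtain ⟨t, ht, hk⟩ : ∃ t : ℕ, 0 < t ∧ 2 * k ≤ (t : ℤ) - 1 := by
    refine ⟨(2 * k).toNat + 1, Nat.succ_pos _, ?_⟩
    have := Int.self_le_toNat (2 * k)
    push_cast
    linarith
  have hm : 0 < 2 * t := by omega
  refine ⟨Option (Fin (2 * t) × Fin (2 * t)), inferInstance, T (2 * t), bip _,
    ⟨none, some (⟨0, hm⟩, ⟨0, hm⟩), adj_root _⟩, ?_⟩
  have h1 := diff_ge hm
  have h2 : ⌈(sumIndex (T (2 * t)) : ℚ) / 2⌉ = (t : ℤ) := by
    rw [sum_eq hm]
    have : ((2 * t : ℕ) : ℚ) / 2 = ((t : ℤ) : ℚ) := by push_cast; ring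
    rw [this, Int.ceil_intCast]
  rw [h2]
  zify at h1
  push_cast at h1
  omega

end Pool.Agent.Results.MP_ecebd1_co.UnboundedExcess
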